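import Mathlib
import Pool.Agent.W437.OR.Lie
import Pool.Agent.W437.HC.Cubic
import Pool.Agent.W437.HK.Coef

/-!
# Elements of the Lie algebra which come from the eigenvalues of one element of the group
-/

set_option linter.unusedSectionVars false

namespace Pool.Agent.W437.OR

open Matrix Module Module.End Pool.Agent.W437.HC Pool.Agent.W437.HP

section general

variable {F : Type*} [Field F] [CharZero F] {B : Type*} [Fintype B] [DecidableEq B]

/-- An operator which acts by scalars on the generalized eigenspaces. -/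
theorem exists_D [IsAlgClosed F] (T : Matrix B B F) (θ : F → F) :
    ∃ D : Matrix B B F, ∀ μ, ∀ x ∈ maxGenEigenspace (Matrix.mulVecLin T) μ,
      D *ᵥ x = θ μ • x := by
  classical
  have h1 : DirectSum.IsInternal (fun μ : F => maxGenEigenspace (Matrix.mulVecLin T) μ) :=
    DirectSum.isInternal_submodule_of_iSupIndep_of_iSup_eq_top
      (independent_maxGenEigenspace _) (iSup_maxGenEigenspace_eq_top _)
  let e := LinearEquiv.ofBijective (DirectSum.coeLinearMap
    (fun μ : F => maxGenEigenspace (Matrix.mulVecLin T) μ)) h1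
  let g : (DirectSum F fun μ : F => maxGenEigenspace (Matrix.mulVecLin T) μ) →ₗ[F] (B → F) :=
    DirectSum.toModule F F (B → F)
      (fun μ => θ μ • (maxGenEigenspace (Matrix.mulVecLin T) μ).subtype)
  refine ⟨LinearMap.toMatrix' (g ∘ₗ e.symm.toLinearMap), fun μ x hx => ?_⟩
  rw [LinearMap.toMatrix'_mulVec]
  have h2 : e.symm x = DirectSum.lof F F
      (fun μ : F => maxGenEigenspace (Matrix.mulVecLin T) μ) μ ⟨x, hx⟩ := by
    rw [LinearEquiv.symm_apply_eq]
    change x = DirectSum.coeLinearMap _ _
    rw [DirectSum.coeLinearMap_lof]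
  change g (e.symm x) = _
  rw [h2, DirectSum.toModule_lof]
  rfl

theorem evalF_zero_of {κ : Type*} [Fintype κ] [DecidableEq κ] (c : (κ → B) → F)
    {x : κ → B → F} {j : κ} (h : x j = 0) : evalF c x = 0 := by
  rw [← evalM_apply]
  exact (evalM c).map_coord_zero j h

/-- A form which is an eigenvector vanishes on generalized eigenvectors, unless the eigenvalues
fit. -/
theorem evalF_gen {κ : Type*} [Fintype κ] [DecidableEq κ] {T : Matrix B B F} {c : (κ → B) → F}
    {lam : F} (hc : pull T c = lam • c) {ν : κ → F} (hν : ∏ j, ν j ≠ lam) (s : ℕ) :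
    ∀ r : κ → ℕ, ∑ j, r j ≤ s → ∀ x : κ → B → F,
      (∀ j, ((T - ν j • 1) ^ r j) *ᵥ x j = 0) → evalF c x = 0 := by
  induction s with
  | zero =>
    intro r hr x hx
    have hr0 : ∀ j, r j = 0 := fun j =>
      Nat.le_zero.1 ((Finset.single_le_sum (fun _ _ => Nat.zero_le _) (Finset.mem_univ j)).trans hr)
    rcases isEmpty_or_nonempty κ with hκ | ⟨⟨j⟩⟩
    · have h1 : evalF (pull T c) x = evalF c x := by
        rw [evalF_pull]
        congr 1
        exact Subsingleton.elim _ _
      have h2 : evalF (lam • c) x = lam * evalF c x := by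
        unfold evalF
        rw [Finset.mul_sum]
        exact Finset.sum_congr rfl fun I _ => by rw [Pi.smul_apply, smul_eq_mul, mul_assoc]
      rw [hc, h2] at h1
      have h3 : (lam - 1) * evalF c x = 0 := by linear_combination h1
      refine (mul_eq_zero.1 h3).resolve_left fun h4 => hν ?_
      rw [Finset.prod_of_isEmpty]
      exact (sub_eq_zero.1 h4).symm
    · refine evalF_zero_of c (j := j) ?_
      have h1 := hx j
      rwa [hr0, pow_zero, one_mulVec] at h1
  | succ s ih =>
    intro r hr x hx
    by_cases h0 : ∃ j, r j = 0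
    · obtain ⟨j, hj⟩ := h0
      refine evalF_zero_of c (j := j) ?_
      have h1 := hx j
      rwa [hj, pow_zero, one_mulVec] at h1
    push Not at h0
    have h1 : evalF (pull T c) x = lam * evalF c x := by
      rw [hc]
      unfold evalF
      rw [Finset.mul_sum]
      exact Finset.sum_congr rfl fun I _ => by rw [Pi.smul_apply, smul_eq_mul, mul_assoc]
    rw [evalF_pull] at h1
    obtain ⟨y, hy⟩ : ∃ y : κ → B → F, y = fun j => (T - ν j • 1) *ᵥ x j := ⟨_, rfl⟩
    have h2 : (fun j => T *ᵥ x j) = (fun j => ν j • x j) + y := by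
      funext j
      rw [hy, Pi.add_apply, sub_mulVec, smul_mulVec, one_mulVec, add_sub_cancel]
    rw [h2, ← evalM_apply, MultilinearMap.map_add_univ] at h1
    have h3 : ∀ S : Finset κ, S ≠ Finset.univ →
        evalM c (S.piecewise (fun j => ν j • x j) y) = 0 := by
      intro S hS
      rw [evalM_apply]
      obtain ⟨j0, hj0⟩ : ∃ j, j ∉ S := by
        by_contra h
        push Not at h
        exact hS (Finset.eq_univ_iff_forall.2 h)
      refine ih (fun j => if j ∈ S then r j else r j - 1) ?_ _ fun j => ?_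
      · have h4 : ∑ j, (if j ∈ S then r j else r j - 1) < ∑ j, r j := by
          refine Finset.sum_lt_sum (fun j _ => ?_) ⟨j0, Finset.mem_univ j0, ?_⟩
          · split_ifs
            · exact le_rfl
            · exact Nat.sub_le _ _
          · rw [if_neg hj0]
            exact Nat.sub_lt (Nat.pos_of_ne_zero (h0 j0)) one_pos
        omega
      · by_cases hj : j ∈ S
        · rw [Finset.piecewise_eq_of_mem _ _ _ hj, if_pos hj, mulVec_smul, hx, smul_zero]
        · rw [Finset.piecewise_eq_of_notMem _ _ _ hj, if_neg hj, hy]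
          simp only
          rw [mulVec_mulVec, ← pow_succ, Nat.sub_add_cancel (Nat.pos_of_ne_zero (h0 j)), hx]
    rw [Finset.sum_eq_single Finset.univ (fun S _ hS => h3 S hS)
      (fun h => absurd (Finset.mem_univ _) h), Finset.piecewise_univ,
      MultilinearMap.map_smul_univ, evalM_apply, smul_eq_mul] at h1
    have h4 : (∏ j, ν j - lam) * evalF c x = 0 := by linear_combination h1
    exact (mul_eq_zero.1 h4).resolve_left (sub_ne_zero.2 hν)

theorem pow_gen {T : Matrix B B F} {μ : F} {x : B → F}
    (hx : x ∈ maxGenEigenspace (Matrix.mulVecLin T) μ) (m : ℕ) :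
    ∃ r : ℕ, ((T ^ m - μ ^ m • 1) ^ r) *ᵥ x = 0 := by
  obtain ⟨r, hr⟩ := (mem_maxGenEigenspace _ _ _).1 hx
  refine ⟨r, ?_⟩
  have h1 : Matrix.mulVecLin T - μ • 1 = Matrix.mulVecLin (T - μ • 1) := by
    ext y
    simp [sub_mulVec, smul_mulVec]
  have h2 : ∀ n : ℕ, (Matrix.mulVecLin (T - μ • 1)) ^ n =
      Matrix.mulVecLin ((T - μ • 1) ^ n) := by
    intro n
    induction n with
    | zero =>
      rw [pow_zero, pow_zero]
      exact (Matrix.mulVecLin_one).symm
    | succ n ih =>
      rw [pow_succ, pow_succ, ih, Matrix.mulVecLin_mul]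
      rfl
  rw [h1, h2, mulVecLin_apply] at hr
  have hcomm : Commute T (μ • (1 : Matrix B B F)) := by
    rw [commute_iff_eq, Matrix.mul_smul, Matrix.smul_mul, Matrix.mul_one, Matrix.one_mul]
  obtain ⟨Q, hQ⟩ : ∃ Q, Q = ∑ i ∈ Finset.range m, T ^ i * (μ • (1 : Matrix B B F)) ^ (m - 1 - i) :=
    ⟨_, rfl⟩
  have h3 : Q * (T - μ • 1) = T ^ m - μ ^ m • 1 := by
    rw [hQ, hcomm.geom_sum₂_mul, smul_pow, one_pow]
  have hQc : Commute Q (T - μ • 1) := by
    rw [hQ]
    refine Commute.sum_left _ _ _ fun i _ => ?_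
    have e1 : Commute T (T - μ • (1 : Matrix B B F)) := (Commute.refl T).sub_right hcomm
    have e2 : Commute (μ • (1 : Matrix B B F)) (T - μ • (1 : Matrix B B F)) :=
      (hcomm.symm).sub_right (Commute.refl _)
    exact (e1.pow_left i).mul_left (e2.pow_left _)
  rw [← h3, hQc.mul_pow, ← mulVec_mulVec, hr, mulVec_zero]

theorem gen_map {R : Type*} [Fintype R] [DecidableEq R] {P : Matrix R B F} {T : Matrix B B F}
    {T' : Matrix R R F} (h : P * T = T' * P) {μ : F} {x : B → F}
    (hx : x ∈ maxGenEigenspace (Matrix.mulVecLin T) μ) :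
    P *ᵥ x ∈ maxGenEigenspace (Matrix.mulVecLin T') μ := by
  rw [mem_maxGenEigenspace] at hx ⊢
  obtain ⟨r, hr⟩ := hx
  refine ⟨r, ?_⟩
  have h7 : ∀ (s : ℕ) (y : B → F), P *ᵥ (((Matrix.mulVecLin T - μ • 1) ^ s) y) =
      ((Matrix.mulVecLin T' - μ • 1) ^ s) (P *ᵥ y) := by
    intro s
    induction s with
    | zero => exact fun y => rfl
    | succ s ih =>
      intro y
      rw [pow_succ, pow_succ, Module.End.mul_apply, Module.End.mul_apply, ih]
      congr 1
      change P *ᵥ (T *ᵥ y - μ • y) = T' *ᵥ (P *ᵥ y) - μ • (P *ᵥ y)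
      rw [mulVec_sub, mulVec_smul, mulVec_mulVec, h, ← mulVec_mulVec]
  rw [← h7, hr, mulVec_zero]

theorem root_of_gen {T : Matrix B B F} {μ : F} {x : B → F} (hx0 : x ≠ 0)
    (hx : x ∈ maxGenEigenspace (Matrix.mulVecLin T) μ) : T.charpoly.IsRoot μ := by
  have h4 : maxGenEigenspace (Matrix.mulVecLin T) μ ≠ ⊥ := by
    intro h5
    rw [h5, Submodule.mem_bot] at hx
    exact hx0 hx
  have h5 : HasEigenvalue (Matrix.mulVecLin T) μ := by
    rw [hasEigenvalue_iff]
    intro h6
    apply h4
    rw [Submodule.eq_bot_iff]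
    intro y hy
    rw [mem_maxGenEigenspace] at hy
    obtain ⟨r, hr⟩ := hy
    induction r with
    | zero => exact hr
    | succ r ih =>
      refine ih ?_
      have h7 : ((Matrix.mulVecLin T - μ • 1) ^ r) y ∈ eigenspace (Matrix.mulVecLin T) μ := by
        rw [mem_eigenspace_iff, ← sub_eq_zero]
        rw [pow_succ', Module.End.mul_apply] at hr
        exact hr
      rw [h6, Submodule.mem_bot] at h7
      exact h7
  have h7 := (Module.End.hasEigenvalue_iff_isRoot_charpoly _ _).1 h5
  rwa [← Matrix.toLin'_apply', Matrix.charpoly_toLin'] at h7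

theorem gen_of_root {T : Matrix B B F} {μ : F} (h : T.charpoly.IsRoot μ) :
    ∃ x : B → F, x ≠ 0 ∧ x ∈ maxGenEigenspace (Matrix.mulVecLin T) μ := by
  rw [← Matrix.charpoly_toLin', ← Module.End.hasEigenvalue_iff_isRoot_charpoly,
    Matrix.toLin'_apply'] at h
  obtain ⟨x, hx⟩ := h.exists_hasEigenvector
  refine ⟨x, hx.2, ?_⟩
  rw [mem_maxGenEigenspace]
  refine ⟨1, ?_⟩
  rw [pow_one]
  have h1 := mem_eigenspace_iff.1 hx.1
  change Matrix.mulVecLin T x - μ • x = 0
  rw [h1, sub_self]

end general

variable {F : Type} [Field F] [CharZero F] {ι : Type} [Fintype ι] [DecidableEq ι] {N : ι → ℕ}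
  {l : ℕ} {Γ : Type} [Group Γ] {χ : Γ →* Fˣ} {k : ι → ℤ}
  (M : Γ →* Matrix (Fin l) (Fin l) F) (V : ∀ i, OrRep χ (k i) (N i))

theorem grp_pow (f : Γ) (m : ℕ) : grp M V (f ^ m) = grp M V f ^ m := by
  induction m with
  | zero => rw [pow_zero, pow_zero, grp_one]
  | succ m ih => rw [pow_succ, pow_succ, grp_mul, ih]

/-- The projection to the first summand. -/
def incM (F : Type) [Field F] (l : ℕ) (N : ι → ℕ) : Matrix (Fin l) (Bas l N) F :=
  Matrix.of fun b z => if z = Sum.inl b then 1 else 0

theorem incM_mul {n : Type*} (X : Matrix (Bas l N) n F) (b : Fin l) (z : n) :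
    (incM F l N * X) b z = X (Sum.inl b) z := by
  rw [Matrix.mul_apply, Finset.sum_eq_single (Sum.inl b)]
  · simp [incM]
  · intro y _ hy
    simp [incM, hy]
  · intro h
    exact absurd (Finset.mem_univ _) h

theorem incM_mulVec (x : Bas l N → F) (b : Fin l) :
    (incM F l N *ᵥ x) b = x (Sum.inl b) := by
  unfold mulVec dotProduct
  rw [Finset.sum_eq_single (Sum.inl b)]
  · simp [incM]
  · intro y _ hy
    simp [incM, hy]
  · intro h
    exact absurd (Finset.mem_univ _) h

theorem mul_incM_inl {n : Type*} (X : Matrix n (Fin l) F) (z : n) (b : Fin l) :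
    (X * incM F l N) z (Sum.inl b) = X z b := by
  rw [Matrix.mul_apply, Finset.sum_eq_single b]
  · simp [incM]
  · intro y _ hy
    simp [incM, Ne.symm hy]
  · intro h
    exact absurd (Finset.mem_univ _) h

theorem mul_incM_inr {n : Type*} (X : Matrix n (Fin l) F) (z : n) (b : Σ i, Fin (N i)) :
    (X * incM F l N) z (Sum.inr b) = 0 := by
  rw [Matrix.mul_apply]
  exact Finset.sum_eq_zero fun a _ => by simp [incM]

/-- The operator given by a homomorphism which vanishes on the eigenvalues on `M`. -/
theorem hh_frob [IsAlgClosed F] {f : Γ} (θ : Fˣ →* Multiplicative F) (hχ : θ (χ f) = 1)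
    (hM : ∀ a : Fˣ, (M f).charpoly.IsRoot (a : F) → θ a = 1) :
    ∃ Y ∈ hh M V, ∀ j,
      ((∃ a : Fˣ, ((V j).ρ f).charpoly.IsRoot (a : F) ∧ θ a ≠ 1) → Y j ≠ 0) ∧
      ((∀ a : Fˣ, ((V j).ρ f).charpoly.IsRoot (a : F) → θ a = 1) → Y j = 0) := by
  classical
  obtain ⟨t, ht⟩ : ∃ t : F → F,
    t = fun a => if h : a ≠ 0 then (θ (Units.mk0 a h)).toAdd else 0 := ⟨_, rfl⟩
  have htu : ∀ a : Fˣ, t a = (θ a).toAdd := by
    intro a
    rw [ht]
    simp only
    rw [dif_pos a.ne_zero, Units.mk0_val]
  have ht1 : ∀ a : Fˣ, θ a = 1 → t a = 0 := by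
    intro a ha
    rw [htu, ha]
    rfl
  choose D hD using fun j => exists_D (((V j).ρ f)ᵀ) t
  refine ⟨D, ?_, ?_⟩
  · intro κ _ _ c hc
    rw [isTate_iff] at hc
    obtain ⟨n, H, hH, h⟩ := hc
    obtain ⟨m, hm0, -, hm⟩ := Subgroup.exists_pow_mem_of_index_ne_zero hH.index_ne_zero f
    have h1 := h _ hm
    obtain ⟨T, hT⟩ : ∃ T, T = (grp M V f)ᵀ := ⟨_, rfl⟩
    unfold ta at h1
    rw [grp_pow, Matrix.transpose_pow, ← hT] at h1
    -- the operator on generalized eigenvectors
    have hem : ∀ μ, ∀ x ∈ maxGenEigenspace (Matrix.mulVecLin T) μ,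
        em l D *ᵥ x = t μ • x := by
      intro μ x hx
      funext z
      rcases z with z | ⟨j, b⟩
      · -- the component in `M`
        have h2 : (em l D *ᵥ x) (Sum.inl z) = 0 := by
          unfold mulVec dotProduct
          refine Finset.sum_eq_zero fun y _ => ?_
          have h3 : em l D (Sum.inl z) y = 0 := by rcases y with y | y <;> rfl
          change em l D (Sum.inl z) y * x y = 0
          rw [h3, zero_mul]
        rw [h2, Pi.smul_apply, smul_eq_mul]
        by_cases hx0 : x (Sum.inl z) = 0
        · rw [hx0, mul_zero]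
        · have h3 : t μ = 0 := by
            have h5 : incM F l N * T = (M f)ᵀ * incM F l N := by
              rw [hT, grp, Matrix.fromBlocks_transpose]
              ext a y
              rw [incM_mul]
              rcases y with y | y
              · rw [mul_incM_inl]
                rfl
              · rw [mul_incM_inr]
                rfl
            have h6 := root_of_gen (x := incM F l N *ᵥ x) (fun h0 => hx0 (by
              have h7 := congrFun h0 z
              rwa [incM_mulVec] at h7)) (gen_map h5 hx)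
            rw [Matrix.charpoly_transpose] at h6
            by_cases hμ : μ = 0
            · rw [hμ, ht]
              simp
            · exact ht1 (Units.mk0 μ hμ) (hM _ h6)
          rw [h3, zero_mul]
      · have h5 : inc F l N j * T = ((V j).ρ f)ᵀ * inc F l N j := by
          rw [hT]
          have h6 : grp M V f * (inc F l N j)ᵀ = (inc F l N j)ᵀ * (V j).ρ f :=
            blocks_incT j _ _
          have h7 := congrArg Matrix.transpose h6
          rwa [Matrix.transpose_mul, Matrix.transpose_mul, Matrix.transpose_transpose] at h7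
        have h6 := hD j μ _ (gen_map h5 hx)
        have h7 : inc F l N j *ᵥ (em l D *ᵥ x) = t μ • (inc F l N j *ᵥ x) := by
          rw [mulVec_mulVec, inc_em, ← mulVec_mulVec, h6]
        have h8 : ∀ y : Bas l N → F, (inc F l N j *ᵥ y) b = y (Sum.inr ⟨j, b⟩) := by
          intro y
          unfold mulVec dotProduct
          rw [Finset.sum_eq_single (Sum.inr ⟨j, b⟩)]
          · simp [inc]
          · intro z _ hz
            simp [inc, hz]
          · intro h
            exact absurd (Finset.mem_univ _) h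
        have h9 := congrFun h7 b
        rw [h8, Pi.smul_apply, h8] at h9
        exact h9
    refine evalF_ext fun x => ?_
    rw [evalF_zero]
    refine evalF_span _ {x | ∃ μ, x ∈ maxGenEigenspace (Matrix.mulVecLin T) μ} ?_ ?_ x
    · rw [eq_top_iff, ← iSup_maxGenEigenspace_eq_top (Matrix.mulVecLin T)]
      refine iSup_le fun μ y hy => Submodule.subset_span ⟨μ, hy⟩
    · intro x hx
      choose μ hμ using hx
      rw [evalF_act]
      have h2 : ∀ j, evalF c (Function.update x j (em l D *ᵥ x j)) = t (μ j) * evalF c x := by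
        intro j
        rw [hem _ _ (hμ j), evalF_update_smul, Function.update_eq_self]
      rw [Finset.sum_congr rfl (fun j _ => h2 j), ← Finset.sum_mul]
      by_cases h3 : ∏ j, (μ j) ^ m = ((χ (f ^ m) ^ n : Fˣ) : F)
      · have h4 : ∑ j, t (μ j) = 0 := by
          have h5 : ∀ j, μ j ≠ 0 := by
            intro j h6
            have h7 : ∏ j, (μ j) ^ m = 0 := by
              refine Finset.prod_eq_zero (Finset.mem_univ j) ?_
              rw [h6, zero_pow hm0.ne']
            rw [h7] at h3
            exact (Units.ne_zero _) h3.symm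
          have h6 : ∏ j, (Units.mk0 (μ j) (h5 j)) ^ m = χ (f ^ m) ^ n := by
            ext
            rw [Units.coe_prod, ← h3]
            exact Finset.prod_congr rfl fun j _ => by rw [Units.val_pow_eq_pow_val, Units.val_mk0]
          have h7 := congrArg (fun a => (θ a).toAdd) h6
          simp only [map_prod, map_pow, map_zpow, hχ, one_pow, _root_.one_zpow, toAdd_one,
            toAdd_prod, toAdd_pow] at h7
          rw [← Finset.smul_sum, nsmul_eq_mul] at h7
          have h8 := (mul_eq_zero.1 h7).resolve_left (Nat.cast_ne_zero.2 hm0.ne')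
          rw [← h8]
          refine Finset.sum_congr rfl fun j _ => ?_
          rw [← htu, Units.val_mk0]
        rw [h4, zero_mul]
      · choose r hr using fun j => pow_gen (hμ j) m
        rw [evalF_gen h1 h3 _ r le_rfl x hr, mul_zero]
  · refine fun j => ⟨?_, fun hj => ?_⟩
    swap
    · have h1 : Matrix.mulVecLin (D j) = 0 := by
        rw [← LinearMap.ker_eq_top, eq_top_iff,
          ← iSup_maxGenEigenspace_eq_top (Matrix.mulVecLin ((V j).ρ f)ᵀ)]
        refine iSup_le fun μ x hx => ?_
        rw [LinearMap.mem_ker, mulVecLin_apply, hD j μ x hx]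
        by_cases hx0 : x = 0
        · rw [hx0, smul_zero]
        · have h2 := root_of_gen hx0 hx
          rw [Matrix.charpoly_transpose] at h2
          have h3 : t μ = 0 := by
            by_cases hμ : μ = 0
            · rw [hμ, ht]
              simp
            · exact ht1 (Units.mk0 μ hμ) (hj _ h2)
          rw [h3, zero_smul]
      have h2 := congrArg LinearMap.toMatrix' h1
      rwa [map_zero, ← Matrix.toLin'_apply', LinearMap.toMatrix'_toLin'] at h2
    rintro ⟨a, ha, hθ⟩ h0
    rw [← Matrix.charpoly_transpose] at ha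
    obtain ⟨x, hx0, hx⟩ := gen_of_root ha
    have h1 := hD j _ x hx
    rw [h0, zero_mulVec, htu] at h1
    have h2 := (smul_eq_zero.1 h1.symm).resolve_right hx0
    apply hθ
    exact toAdd_eq_zero.1 h2

end Pool.Agent.W437.OR
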