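import Mathlib
import Pool.Agent.W437.OR.Defs
import Pool.Agent.W437.HC.Act
import Pool.Agent.W544.FF.Defs

/-!
# The first fundamental theorem for one orthogonal Lie algebra
-/

set_option linter.unusedSectionVars false

namespace Pool.Agent.W437.OR

open Matrix Pool.Agent.W437.HC

variable {F : Type} [Field F]

/-- Products of pairings. -/
def gpr {N : ℕ} (E : Matrix (Fin N) (Fin N) F) {κ : Type} {p : ℕ}
    (e : Fin p × Fin 2 ≃ κ) : (κ → Fin N) → F :=
  fun I => ∏ s, E (I (e (s, 0))) (I (e (s, 1)))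

/-- The determinant tensor. -/
def dtn (F : Type) [Field F] (N : ℕ) : (Fin N → Fin N) → F :=
  fun I => Matrix.det (Matrix.of fun a b : Fin N => if I a = b then (1 : F) else 0)

/-- Products of pairings and of the determinant tensor. -/
def gdt {N : ℕ} (E : Matrix (Fin N) (Fin N) F) {κ : Type} {p : ℕ}
    (e : (Fin p × Fin 2) ⊕ Fin N ≃ κ) : (κ → Fin N) → F :=
  fun I => (∏ s, E (I (e (Sum.inl (s, 0)))) (I (e (Sum.inl (s, 1))))) *
    dtn F N (fun a => I (e (Sum.inr a)))

/-- The generators. -/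
def Gen {N : ℕ} (E : Matrix (Fin N) (Fin N) F) (κ : Type) : Set ((κ → Fin N) → F) :=
  {u | (∃ (p : ℕ) (e : Fin p × Fin 2 ≃ κ), u = gpr E e) ∨
    ∃ (p : ℕ) (e : (Fin p × Fin 2) ⊕ Fin N ≃ κ), u = gdt E e}

theorem skew_basis {N : ℕ} (ι₀ : F →+* ℂ) {E : Matrix (Fin N) (Fin N) F}
    (hE : Eᵀ = E) (hu : IsUnit E) {Z : Matrix (Fin N) (Fin N) ℂ}
    (hZ : Zᵀ * E.map ι₀ + E.map ι₀ * Z = 0) :
    Z = ∑ a, ∑ b, ((E.map ι₀ * Z) a b / 2) •
      (E⁻¹ * (Matrix.single a b 1 - Matrix.single b a 1)).map ι₀ := by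
  obtain ⟨S, hS⟩ : ∃ S, S = E.map ι₀ * Z := ⟨_, rfl⟩
  have hST : Sᵀ = -S := by
    rw [hS, Matrix.transpose_mul, ← Matrix.transpose_map, hE]
    exact eq_neg_of_add_eq_zero_left hZ
  have hEi : E⁻¹.map ι₀ * E.map ι₀ = 1 := by
    have h1 : ι₀.mapMatrix (E⁻¹ * E) = 1 := by
      rw [Matrix.nonsing_inv_mul _ ((Matrix.isUnit_iff_isUnit_det _).1 hu), map_one]
    rwa [map_mul] at h1
  have h2 : Z = E⁻¹.map ι₀ * S := by
    rw [hS, ← Matrix.mul_assoc, hEi, Matrix.one_mul]
  have h3 : S = ∑ a, ∑ b, (S a b / 2) • ((Matrix.single a b 1 - Matrix.single b a 1 :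
      Matrix (Fin N) (Fin N) F).map ι₀) := by
    have h4 : ∀ a b, ((Matrix.single a b 1 - Matrix.single b a 1 :
        Matrix (Fin N) (Fin N) F).map ι₀) = Matrix.single a b (1 : ℂ) - Matrix.single b a 1 := by
      intro a b
      ext x y
      simp only [Matrix.map_apply, Matrix.sub_apply, Matrix.single_apply, map_sub]
      split_ifs <;> simp
    simp only [h4, smul_sub, Finset.sum_sub_distrib]
    have h5 : ∑ a, ∑ b, (S a b / 2) • Matrix.single b a (1 : ℂ) =
        -∑ a, ∑ b, (S a b / 2) • Matrix.single a b (1 : ℂ) := by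
      rw [Finset.sum_comm, ← Finset.sum_neg_distrib]
      refine Finset.sum_congr rfl fun b _ => ?_
      rw [← Finset.sum_neg_distrib]
      refine Finset.sum_congr rfl fun a _ => ?_
      have h6 : S a b = -S b a := by
        have h7 := congrFun (congrFun hST b) a
        rw [Matrix.transpose_apply, Matrix.neg_apply] at h7
        exact h7
      rw [h6, neg_div, neg_smul]
    rw [h5, sub_neg_eq_add]
    ext x y
    simp only [Matrix.add_apply, Matrix.sum_apply, Matrix.smul_apply, Matrix.single_apply,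
      smul_eq_mul, mul_ite, mul_one, mul_zero]
    have h8 : ∑ a, ∑ b, (if a = x ∧ b = y then S a b / 2 else 0) = S x y / 2 := by
      rw [Finset.sum_eq_single x, Finset.sum_eq_single y]
      · simp
      · intro b _ hb
        simp [hb]
      · intro h
        exact absurd (Finset.mem_univ _) h
      · intro a _ ha
        simp [ha]
      · intro h
        exact absurd (Finset.mem_univ _) h
    rw [h8]
    ring
  rw [← hS]
  conv_lhs => rw [h2, h3]
  rw [Finset.mul_sum]
  refine Finset.sum_congr rfl fun a _ => ?_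
  rw [Finset.mul_sum]
  refine Finset.sum_congr rfl fun b _ => ?_
  rw [Matrix.mul_smul]
  congr 1
  exact (map_mul ι₀.mapMatrix _ _).symm

theorem act_complex {N : ℕ} (ι₀ : F →+* ℂ) {E : Matrix (Fin N) (Fin N) F}
    (hE : Eᵀ = E) (hu : IsUnit E) {κ : Type} [Fintype κ] [DecidableEq κ]
    (t : (κ → Fin N) → F) (ht : ∀ Y : Matrix (Fin N) (Fin N) F, Yᵀ * E + E * Y = 0 → act Y t = 0)
    {Z : Matrix (Fin N) (Fin N) ℂ} (hZ : Zᵀ * E.map ι₀ + E.map ι₀ * Z = 0) :
    act Z (fun I => ι₀ (t I)) = 0 := by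
  rw [skew_basis ι₀ hE hu hZ, ← actL_apply, map_sum]
  refine Finset.sum_eq_zero fun a _ => ?_
  rw [map_sum]
  refine Finset.sum_eq_zero fun b _ => ?_
  rw [map_smul, actL_apply]
  have hi : E * E⁻¹ = 1 := Matrix.mul_nonsing_inv _ ((Matrix.isUnit_iff_isUnit_det _).1 hu)
  have hi' : E⁻¹ᵀ = E⁻¹ := by rw [Matrix.transpose_nonsing_inv, hE]
  have h1 := ht (E⁻¹ * (Matrix.single a b 1 - Matrix.single b a 1)) (by
    rw [Matrix.transpose_mul, hi', Matrix.mul_assoc,
      Matrix.nonsing_inv_mul _ ((Matrix.isUnit_iff_isUnit_det _).1 hu), Matrix.mul_one,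
      ← Matrix.mul_assoc, hi, Matrix.one_mul, Matrix.transpose_sub, Matrix.transpose_single,
      Matrix.transpose_single]
    abel)
  have h2 : act ((E⁻¹ * (Matrix.single a b 1 - Matrix.single b a 1)).map ι₀)
      (fun I => ι₀ (t I)) = 0 := by
    funext I
    have h3 := congrArg ι₀ (congrFun h1 I)
    rw [Pi.zero_apply, map_zero] at h3
    rw [Pi.zero_apply, ← h3]
    unfold act
    simp only [map_sum, map_mul, Matrix.map_apply]
  rw [h2, smul_zero]

theorem gen_of_data {N : ℕ} (E : Matrix (Fin N) (Fin N) F) {m : ℕ} (σ : Fin m → Fin m)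
    (hσ : ∀ j, σ (σ j) = j) {B : Type} [Fintype B] (g : B → Fin m) (hg : Function.Injective g)
    (hgσ : ∀ b, σ (g b) = g b) (hfix : ∀ j, σ j = j → ∃ b, g b = j) :
    ∃ (p : ℕ) (e : (Fin p × Fin 2) ⊕ B ≃ Fin m), (∀ b, e (Sum.inr b) = g b) ∧
      ∀ I : Fin m → Fin N, ∏ j with j < σ j, E (I j) (I (σ j)) =
        ∏ s, E (I (e (Sum.inl (s, 0)))) (I (e (Sum.inl (s, 1)))) := by
  classical
  obtain ⟨p, ⟨eP⟩⟩ : ∃ p, Nonempty (Fin p ≃ {j : Fin m // j < σ j}) :=
    ⟨_, ⟨(Fintype.equivFin _).symm⟩⟩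
  let f : (Fin p × Fin 2) ⊕ B → Fin m :=
    Sum.elim (fun x => if x.2 = 0 then (eP x.1).1 else σ (eP x.1).1) g
  have hne : ∀ s, σ (eP s).1 ≠ (eP s).1 := fun s => (eP s).2.ne'
  have h10 : (1 : Fin 2) ≠ 0 := by decide
  have h2 : ∀ ε : Fin 2, ε = 0 ∨ ε = 1 := by
    intro ε
    fin_cases ε
    · exact Or.inl rfl
    · exact Or.inr rfl
  have hf : Function.Bijective f := by
    constructor
    · rintro (⟨s, ε⟩ | b) (⟨s', ε'⟩ | b') h
      · rcases h2 ε with rfl | rfl <;> rcases h2 ε' with rfl | rfl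
        · have h3 : (eP s).1 = (eP s').1 := h
          rw [eP.injective (Subtype.ext h3)]
        · exfalso
          have h3 : (eP s).1 = σ (eP s').1 := h
          have h4 : σ (eP s).1 = (eP s').1 := by rw [h3, hσ]
          have h5 := (eP s).2
          have h6 := (eP s').2
          rw [h4] at h5
          rw [← h3] at h6
          exact absurd h5 (not_lt.2 h6.le)
        · exfalso
          have h3 : σ (eP s).1 = (eP s').1 := h
          have h4 : (eP s).1 = σ (eP s').1 := by rw [← h3, hσ]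
          have h5 := (eP s).2
          have h6 := (eP s').2
          rw [h3] at h5
          rw [← h4] at h6
          exact absurd h5 (not_lt.2 h6.le)
        · have h3 : σ (eP s).1 = σ (eP s').1 := h
          have h4 : (eP s).1 = (eP s').1 := by rw [← hσ (eP s).1, h3, hσ]
          rw [eP.injective (Subtype.ext h4)]
      · exfalso
        rcases h2 ε with rfl | rfl
        · have h3 : (eP s).1 = g b' := h
          apply hne s
          rw [h3, hgσ]
        · have h3 : σ (eP s).1 = g b' := h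
          apply hne s
          rw [← hσ (eP s).1, h3, hgσ, hgσ]
      · exfalso
        rcases h2 ε' with rfl | rfl
        · have h3 : g b = (eP s').1 := h
          apply hne s'
          rw [← h3, hgσ]
        · have h3 : g b = σ (eP s').1 := h
          apply hne s'
          rw [← hσ (eP s').1, ← h3, hgσ, hgσ]
      · rw [hg h]
    · intro j
      rcases lt_trichotomy j (σ j) with h | h | h
      · refine ⟨Sum.inl (eP.symm ⟨j, h⟩, 0), ?_⟩
        change (eP (eP.symm ⟨j, h⟩)).1 = j
        rw [Equiv.apply_symm_apply]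
      · obtain ⟨b, hb⟩ := hfix j h.symm
        exact ⟨Sum.inr b, hb⟩
      · have h3 : σ j < σ (σ j) := by rwa [hσ]
        refine ⟨Sum.inl (eP.symm ⟨σ j, h3⟩, 1), ?_⟩
        change σ (eP (eP.symm ⟨σ j, h3⟩)).1 = j
        rw [Equiv.apply_symm_apply]
        exact hσ j
  refine ⟨p, Equiv.ofBijective f hf, fun b => rfl, fun I => ?_⟩
  change _ = ∏ s, E (I (eP s).1) (I (σ (eP s).1))
  rw [Equiv.prod_comp eP (fun j : {j : Fin m // j < σ j} => E (I j.1) (I (σ j.1)))]
  exact Finset.prod_subtype _ (fun j => by simp) _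

theorem fft (hdk : Pool.Agent.W544.FF.S_hdk) (orb : Pool.Agent.W544.FF.S_orb) (ι₀ : F →+* ℂ)
    {N : ℕ} {E : Matrix (Fin N) (Fin N) F} (hE : Eᵀ = E) (hu : IsUnit E) {κ : Type} [Fintype κ]
    [DecidableEq κ] (t : (κ → Fin N) → F)
    (ht : ∀ Y : Matrix (Fin N) (Fin N) F, Yᵀ * E + E * Y = 0 → act Y t = 0) :
    t ∈ Submodule.span F (Gen E κ) := by
  obtain ⟨m, ⟨eκ⟩⟩ : ∃ m, Nonempty (κ ≃ Fin m) := ⟨_, ⟨Fintype.equivFin κ⟩⟩
  let c : Fin N → Fin 1 := fun _ => 0
  have hBD : ∀ (R : Type) [Zero R] (A : Matrix (Fin N) (Fin N) R),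
      Pool.Agent.W544.PG.BD c A := fun R _ A a b h => absurd rfl h
  obtain ⟨u, -, hu1⟩ := orb N 1 c (E.map ι₀) (by rw [← Matrix.transpose_map, hE]) (hBD _ _) (by
    have h1 : (E.map ι₀).det = ι₀ E.det := (RingHom.map_det ι₀ E).symm
    rw [h1]
    exact (map_ne_zero ι₀).2 ((Matrix.isUnit_iff_isUnit_det _).1 hu).ne_zero)
  let pr : Fin 0 ⊕ Fin N → Fin N := Sum.elim (fun x => x.elim0) id
  have hpr : ∀ z, Sum.inr (pr z) = z := by
    rintro (z | z)
    · exact z.elim0
    · rfl
  let t' : (Fin m → Fin 0 ⊕ Fin N) → F := fun J => t (fun j => pr (J (eκ j)))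
  have h1 := hdk F ι₀ N 1 0 m c Fin.elim0 (fun _ => 0) E u (hBD _ _) (hBD _ _) hu1 t' ?_ ?_
  swap
  · intro Z hZ _
    have h2 := act_complex ι₀ hE hu t ht hZ
    funext J
    have h3 := congrFun h2 (fun j => pr (J (eκ j)))
    rw [Pi.zero_apply] at h3 ⊢
    rw [← h3]
    unfold Pool.Agent.W544.PG.act act
    rw [← Equiv.sum_comp eκ]
    refine Finset.sum_congr rfl fun j _ => ?_
    rw [Fintype.sum_sum_type, Finset.univ_eq_empty, Finset.sum_empty, zero_add]
    refine Finset.sum_congr rfl fun b _ => ?_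
    have h4 : (Matrix.fromBlocks 0 0 0 Z : Matrix (Fin 0 ⊕ Fin N) (Fin 0 ⊕ Fin N) ℂ)
        (Sum.inr b) (J (eκ j)) = Z b (pr (J (eκ j))) := by
      conv_lhs => rw [← hpr (J (eκ j))]
      rfl
    rw [h4]
    congr 1
    change ι₀ (t _) = ι₀ (t _)
    congr 2
    funext j'
    by_cases hj : j' = j
    · subst hj
      rw [Function.update_self, Function.update_self]
      rfl
    · rw [Function.update_of_ne hj, Function.update_of_ne (fun h => hj (eκ.injective h))]
  swap
  · intro J _ j
    exact Subsingleton.elim _ _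
  let L : ((Fin m → Fin 0 ⊕ Fin N) → F) →ₗ[F] ((κ → Fin N) → F) :=
    { toFun := fun x I => x (fun j => Sum.inr (I (eκ.symm j)))
      map_add' := fun x y => rfl
      map_smul' := fun a x => rfl }
  have hL : L t' = t := by
    funext I
    change t _ = t I
    congr 1
    funext j
    change I (eκ.symm (eκ j)) = I j
    rw [Equiv.symm_apply_apply]
  rw [← hL]
  clear hL
  clear_value t'
  unfold Pool.Agent.W544.FF.algD at h1
  induction h1 using Submodule.span_induction with
  | zero =>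
    rw [map_zero]
    exact Submodule.zero_mem _
  | add x y _ _ hx hy =>
    rw [map_add]
    exact Submodule.add_mem _ hx hy
  | smul a x _ hx =>
    rw [map_smul]
    exact Submodule.smul_mem _ _ hx
  | mem x hx =>
    obtain ⟨σ, ν, S, g, hσ, -, -, hg, hgσ, -, hx⟩ := hx
    by_cases hfix : ∀ j, σ j = j → ∃ b, g b = j
    swap
    · push Not at hfix
      obtain ⟨j, hj, hj'⟩ := hfix
      have h2 : L x = 0 := by
        funext I
        change x _ = 0
        rw [hx, Finset.prod_eq_zero (i := j), zero_mul, zero_mul]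
        · exact Finset.mem_filter.2 ⟨Finset.mem_univ _, hj, hj'⟩
        · rfl
      rw [h2]
      exact Submodule.zero_mem _
    have h2 : ∀ I : κ → Fin N, L x I =
        (∏ j with j < σ j, E (I (eκ.symm j)) (I (eκ.symm (σ j)))) *
          Pool.Agent.W544.FF.dt c S (Sum.inr : Fin N → Fin 0 ⊕ Fin N) g
            (fun j => Sum.inr (I (eκ.symm j))) := by
      intro I
      change x _ = _
      rw [hx]
      congr 1
      rw [Finset.prod_eq_one, one_mul]
      · refine Finset.prod_congr rfl fun j _ => ?_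
        rw [if_pos (Subsingleton.elim _ _)]
        rfl
      · intro j hj
        exfalso
        obtain ⟨b, hb⟩ := hfix j (Finset.mem_filter.1 hj).2.1
        exact (Finset.mem_filter.1 hj).2.2 b hb
    obtain ⟨p, e, he, hprod⟩ := gen_of_data E σ hσ g hg hgσ hfix
    by_cases hS : (0 : Fin 1) ∈ S
    · -- with determinant
      let eB : Fin N ≃ {b : Fin N // c b ∈ S} :=
        { toFun := fun b => ⟨b, hS⟩
          invFun := fun b => b.1
          left_inv := fun b => rfl
          right_inv := fun b => rfl }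
      refine Submodule.subset_span (Or.inr ⟨p,
        ((Equiv.sumCongr (Equiv.refl _) eB).trans e).trans eκ.symm, ?_⟩)
      funext I
      rw [h2 I, hprod (fun j => I (eκ.symm j))]
      unfold gdt
      congr 1
      unfold Pool.Agent.W544.FF.dt dtn
      rw [← Matrix.det_submatrix_equiv_self eB]
      congr 1
      ext a b
      rw [Matrix.submatrix_apply, Matrix.of_apply, Matrix.of_apply]
      change _ = if I (eκ.symm (e (Sum.inr (eB a)))) = b then (1 : F) else 0
      rw [he]
      have h4 : (c (eB b).1 = c (eB a).1 ∧ (Sum.inr (I (eκ.symm (g (eB a)))) :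
          Fin 0 ⊕ Fin N) = Sum.inr (eB b).1) ↔ I (eκ.symm (g (eB a))) = b := by
        constructor
        · rintro ⟨-, h⟩
          exact Sum.inr.inj h
        · intro h
          exact ⟨rfl, congrArg Sum.inr h⟩
      by_cases h5 : I (eκ.symm (g (eB a))) = b
      · rw [if_pos (h4.2 h5), if_pos h5]
      · rw [if_neg (fun h => h5 (h4.1 h)), if_neg h5]
    · -- without determinant
      have hB : IsEmpty {b : Fin N // c b ∈ S} := ⟨fun b => hS (by
        have h3 := b.2
        rwa [Subsingleton.elim (c b.1) 0] at h3)⟩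
      refine Submodule.subset_span (Or.inl ⟨p,
        ((Equiv.sumEmpty _ _).symm.trans e).trans eκ.symm, ?_⟩)
      funext I
      rw [h2 I, hprod (fun j => I (eκ.symm j))]
      unfold gpr Pool.Agent.W544.FF.dt
      rw [Matrix.det_isEmpty, mul_one]
      rfl

end Pool.Agent.W437.OR
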