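import Mathlib
import Pool.Agent.W437.OR.Gen
import Pool.Agent.W437.OR.Frob
import Pool.Agent.W437.TA.Asm

/-!
# The generators: group action
-/

set_option linter.unusedSectionVars false

namespace Pool.Agent.W437.OR

open Matrix Pool.Agent.W437.HC Pool.Agent.W437.HP

section general

variable {F : Type} [Field F] {R B : Type} [Fintype R] [DecidableEq R] [Fintype B] [DecidableEq B]

theorem pull_sum {κ₁ κ₂ : Type} [Fintype κ₁] [DecidableEq κ₁] [Fintype κ₂] [DecidableEq κ₂]
    (P : Matrix R B F) (u : (κ₁ → R) → F) (v : (κ₂ → R) → F) :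
    pull P (fun J : κ₁ ⊕ κ₂ → R => u (fun j => J (Sum.inl j)) * v (fun j => J (Sum.inr j))) =
      fun I => pull P u (fun j => I (Sum.inl j)) * pull P v (fun j => I (Sum.inr j)) := by
  funext I
  unfold pull
  rw [← (Equiv.sumArrowEquivProdArrow κ₁ κ₂ R).symm.sum_comp, Fintype.sum_prod_type,
    Finset.sum_mul_sum]
  refine Finset.sum_congr rfl fun J _ => Finset.sum_congr rfl fun J' _ => ?_
  rw [Fintype.prod_sum_type]
  have h5 : (Equiv.sumArrowEquivProdArrow κ₁ κ₂ R).symm (J, J') = Sum.elim J J' := rfl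
  rw [h5]
  simp only [Sum.elim_inl, Sum.elim_inr]
  ring

/-- The pullback of the determinant tensor. -/
theorem pull_dtn {N : ℕ} (P : Matrix (Fin N) B F) (I : Fin N → B) :
    pull P (dtn F N) I = Matrix.det (Matrix.of fun a b => P b (I a)) := by
  unfold pull dtn
  have h1 : ∀ J : Fin N → Fin N,
      (Matrix.of fun a b => if J a = b then (1 : F) else 0).det * ∏ j, P (J j) (I j) =
      ∑ s : Equiv.Perm (Fin N), (Equiv.Perm.sign s : F) *
        ∏ j, ((if J j = s.symm j then (1 : F) else 0) * P (J j) (I j)) := by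
    intro J
    rw [Matrix.det_apply', Finset.sum_mul]
    refine Finset.sum_congr rfl fun s _ => ?_
    rw [Finset.prod_mul_distrib, mul_assoc]
    congr 2
    rw [← Equiv.prod_comp s (fun j => if J j = s.symm j then (1 : F) else 0)]
    refine Finset.prod_congr rfl fun j _ => ?_
    rw [Matrix.of_apply, Equiv.symm_apply_apply]
  rw [Finset.sum_congr rfl fun J _ => h1 J, Finset.sum_comm, Matrix.det_apply']
  refine Finset.sum_congr rfl fun s _ => ?_
  rw [← Finset.mul_sum]
  congr 1
  have h2 := Finset.prod_univ_sum (fun _ : Fin N => (Finset.univ : Finset (Fin N)))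
    (fun j b => (if b = s.symm j then (1 : F) else 0) * P b (I j))
  rw [Fintype.piFinset_univ] at h2
  rw [← h2]
  rw [← Equiv.prod_comp s (fun j => ∑ b, (if b = s.symm j then (1 : F) else 0) * P b (I j))]
  refine Finset.prod_congr rfl fun j _ => ?_
  rw [Matrix.of_apply, Equiv.symm_apply_apply]
  simp

end general

variable {F : Type} [Field F] [CharZero F] {Γ : Type} [Group Γ] {χ : Γ →* Fˣ} {k : ℤ} {N : ℕ}

/-- The group acts on the generators by a power of the character. -/
theorem pull_gen (V : OrRep (F := F) χ k N) {g : Γ}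
    (hg : (V.ρ g).det = ((χ g ^ (k * N) : Fˣ) : F)) {κ : Type} [Fintype κ]
    [DecidableEq κ] {u : (κ → Fin N) → F} (hu : u ∈ Gen V.E κ) :
    pull (V.ρ g)ᵀ u = ((χ g ^ (k * Fintype.card κ) : Fˣ) : F) • u := by
  have hpr : ∀ {κ' : Type} [Fintype κ'] [DecidableEq κ'] (p : ℕ) (e : Fin p × Fin 2 ≃ κ'),
      pull (V.ρ g)ᵀ (gpr V.E e) = ((χ g ^ (2 * k * p) : Fˣ) : F) • gpr V.E e := by
    intro κ' _ _ p e
    funext I
    have h1 : gpr V.E e = fun J => ∏ s, bilc V.E ![J (e (s, 0)), J (e (s, 1))] := rfl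
    rw [h1, Pool.Agent.W437.CY.pull_prod, Pi.smul_apply, smul_eq_mul]
    have h2 : ∀ s : Fin p, pull (V.ρ g)ᵀ (bilc V.E) ![I (e (s, 0)), I (e (s, 1))] =
        ((χ g ^ (2 * k) : Fˣ) : F) * bilc V.E ![I (e (s, 0)), I (e (s, 1))] := by
      intro s
      rw [Pool.Agent.W437.CY.pull_bilc, Matrix.transpose_transpose, V.sim g]
      rfl
    rw [Finset.prod_congr rfl fun s _ => h2 s, Finset.prod_mul_distrib]
    congr 1
    rw [Finset.prod_const, Finset.card_univ, Fintype.card_fin, _root_.zpow_mul (χ g) (2 * k) p,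
      zpow_natCast, Units.val_pow_eq_pow_val]
  rcases hu with ⟨p, e, rfl⟩ | ⟨p, e, rfl⟩
  · rw [hpr]
    have h1 : Fintype.card κ = p * 2 := by
      rw [← Fintype.card_congr e, Fintype.card_prod, Fintype.card_fin, Fintype.card_fin]
    rw [h1]
    congr 3
    push_cast
    ring
  · have h1 : Fintype.card κ = p * 2 + N := by
      rw [← Fintype.card_congr e, Fintype.card_sum, Fintype.card_prod, Fintype.card_fin,
        Fintype.card_fin, Fintype.card_fin]
    obtain ⟨w, hw⟩ : ∃ w : ((Fin p × Fin 2) ⊕ Fin N → Fin N) → F, w =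
        fun J => gpr V.E (Equiv.refl (Fin p × Fin 2)) (fun j => J (Sum.inl j)) *
          dtn F N (fun j => J (Sum.inr j)) := ⟨_, rfl⟩
    have h2 : gdt V.E e = fun I => w (fun j => I (e j)) := by rw [hw]; rfl
    have h3 : pull (V.ρ g)ᵀ (dtn F N) = ((χ g ^ (k * N) : Fˣ) : F) • dtn F N := by
      funext I
      rw [pull_dtn, Pi.smul_apply, smul_eq_mul, ← hg, mul_comm]
      unfold dtn
      rw [← Matrix.det_mul]
      congr 1
      ext a b
      rw [Matrix.mul_apply, Finset.sum_eq_single (I a)]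
      · simp
      · intro c _ hc
        simp [Ne.symm hc]
      · intro h
        exact absurd (Finset.mem_univ _) h
    rw [h2]
    funext I
    rw [Pool.Agent.W437.CY.pull_reindex, Pi.smul_apply, smul_eq_mul, hw, pull_sum]
    simp only [hpr, h3, h1, Pi.smul_apply, smul_eq_mul]
    have h4 : ((χ g ^ (k * ((p * 2 + N : ℕ) : ℤ)) : Fˣ) : F) =
        ((χ g ^ (2 * k * p) : Fˣ) : F) * ((χ g ^ (k * N) : Fˣ) : F) := by
      rw [← Units.val_mul, ← _root_.zpow_add]
      congr 2
      push_cast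
      ring
    rw [h4]
    ring

/-- On a subgroup of finite index the determinant is a power of the character. -/
theorem exists_det (V : OrRep (F := F) χ k N) :
    ∃ H : Subgroup Γ, H.FiniteIndex ∧ ∀ g ∈ H, (V.ρ g).det = ((χ g ^ (k * N) : Fˣ) : F) := by
  let d : Γ →* Fˣ := (Matrix.detMonoidHom.comp V.ρ).toHomUnits
  have hd : ∀ g, (d g : F) = (V.ρ g).det := fun g => rfl
  let ε : Γ →* Fˣ :=
    { toFun := fun g => d g * (χ g ^ (k * N))⁻¹
      map_one' := by simp
      map_mul' := fun g h => by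
        rw [map_mul, map_mul, mul_zpow, mul_inv]
        exact mul_mul_mul_comm _ _ _ _ }
  have hε : ∀ g, ε g * ε g = 1 := by
    intro g
    have h1 := congrArg Matrix.det (V.sim g)
    rw [Matrix.det_mul, Matrix.det_mul, Matrix.det_transpose, Matrix.det_smul, Fintype.card_fin,
      ← hd] at h1
    have h2 : V.E.det ≠ 0 := ((Matrix.isUnit_iff_isUnit_det _).1 V.unit).ne_zero
    have h3 : ((d g * d g : Fˣ) : F) = (((χ g ^ (2 * k)) ^ N : Fˣ) : F) := by
      rw [Units.val_mul, Units.val_pow_eq_pow_val]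
      refine mul_right_cancel₀ h2 ?_
      rw [← h1]
      ring
    have h4 := Units.ext h3
    have h5 : (χ g ^ (2 * k)) ^ N = χ g ^ (k * N) * χ g ^ (k * N) := by
      rw [← zpow_natCast, ← _root_.zpow_mul, ← _root_.zpow_add]
      congr 1
      ring
    change d g * (χ g ^ (k * N))⁻¹ * (d g * (χ g ^ (k * N))⁻¹) = 1
    rw [mul_mul_mul_comm, h4, h5, ← mul_inv, mul_inv_cancel]
  have hfin : Finite ε.range := by
    refine Set.Finite.subset (Set.toFinite {(1 : Fˣ), -1}) ?_
    rintro _ ⟨g, rfl⟩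
    have h1 : ((ε g : F) - 1) * ((ε g : F) + 1) = 0 := by
      have h2 := congrArg Units.val (hε g)
      rw [Units.val_mul, Units.val_one] at h2
      linear_combination h2
    rcases mul_eq_zero.1 h1 with h2 | h2
    · exact Or.inl (Units.ext (by rw [Units.val_one]; exact sub_eq_zero.1 h2))
    · refine Or.inr (Units.ext ?_)
      rw [Units.val_neg, Units.val_one]
      exact eq_neg_of_add_eq_zero_left h2
  refine ⟨ε.ker, inferInstance, fun g hg => ?_⟩
  have h1 : d g * (χ g ^ (k * N))⁻¹ = 1 := hg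
  have h2 := mul_inv_eq_one.1 h1
  rw [← hd, h2]

end Pool.Agent.W437.OR
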