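import Mathlib
import Pool.Agent.W437.OR.Ten

/-!
# Slices of Tate classes (orthogonal summands)
-/

set_option linter.unusedSectionVars false

namespace Pool.Agent.W437.OR

open Matrix Pool.Agent.W437.HC Pool.Agent.W437.HP

variable {F : Type} [Field F] [CharZero F] {ι : Type} [Fintype ι] [DecidableEq ι] {N : ι → ℕ}
  {l : ℕ} {Γ : Type} [Group Γ] {χ : Γ →* Fˣ} {k : ι → ℤ}
  {M : Γ →* Matrix (Fin l) (Fin l) F} {V : ∀ i, OrRep χ (k i) (N i)} {D : Set ι}
  {A : ∀ κ : Type, Submodule F ((κ → Bas l N) → F)}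

theorem one_mem (hA : IsSystem M V D A) : (fun _ : Empty → Bas l N => (1 : F)) ∈ A Empty := by
  refine hA.low Empty _ ⟨0, ⊤, inferInstance, fun g _ I => ?_⟩ fun I ⟨j, _⟩ => j.elim
  rw [Fintype.sum_unique]
  simp

/-- Products of families of classes. -/
theorem prod_mem (hA : IsSystem M V D A) (κ0 : Type) [Finite κ0] (Λ : Type) [Fintype Λ] :
    ∀ a : Λ → (κ0 → Bas l N) → F, (∀ s, a s ∈ A κ0) →
      (fun I : Λ × κ0 → Bas l N => ∏ s, a s (fun ε => I (s, ε))) ∈ A (Λ × κ0) := by
  refine Fintype.induction_empty_option (P := fun Λ _ =>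
    ∀ a : Λ → (κ0 → Bas l N) → F, (∀ s, a s ∈ A κ0) →
      (fun I : Λ × κ0 → Bas l N => ∏ s, a s (fun ε => I (s, ε))) ∈ A (Λ × κ0)) ?_ ?_ ?_ Λ
  · intro α β _ e ih a ha
    let _ : Fintype α := Fintype.ofEquiv β e.symm
    have h1 := ih (fun s => a (e s)) (fun s => ha _)
    have h2 := hA.perm _ _ (Equiv.prodCongr e (Equiv.refl κ0)) _ h1
    convert h2 using 1
    funext I
    rw [← Equiv.prod_comp e (fun s => a s (fun ε => I (s, ε)))]
    exact Fintype.prod_equiv (Equiv.refl α) _ _ (fun s => rfl)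
  · intro a ha
    have e : Empty ≃ PEmpty × κ0 := Equiv.equivOfIsEmpty _ _
    have h2 := hA.perm _ _ e _ (one_mem hA)
    convert h2 using 1
    funext I
    exact Fintype.prod_empty _
  · intro α _ ih a ha
    have h1 := ih (fun s => a (some s)) (fun s => ha _)
    have h2 := hA.mul _ _ _ _ (ha none) h1
    let e : κ0 ⊕ (α × κ0) ≃ Option α × κ0 :=
      { toFun := Sum.elim (fun ε => (none, ε)) (fun p => (some p.1, p.2))
        invFun := fun p => match p with
          | (none, ε) => Sum.inl ε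
          | (some s, ε) => Sum.inr (s, ε)
        left_inv := by
          rintro (ε | ⟨s, ε⟩) <;> rfl
        right_inv := by
          rintro ⟨_ | s, ε⟩ <;> rfl }
    have h3 := hA.perm _ _ e _ h2
    convert h3 using 1
    funext I
    rw [Fintype.prod_option]
    rfl

theorem inc_bilc (i : ι) (E : Matrix (Fin (N i)) (Fin (N i)) F) :
    pull (inc F l N i) (bilc E) = pairClass l i i E := by
  rw [Pool.Agent.W437.CY.pull_bilc, pairClass_eq]
  rfl

theorem inc_dtn (i : ι) : pull (inc F l N i) (dtn F (N i)) = detClass F l N i := by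
  funext I
  rw [pull_dtn]
  unfold detClass
  congr 1

theorem gpr_mem (hA : IsSystem M V D A) (i : ι) {κ : Type} [Fintype κ] [DecidableEq κ] {p : ℕ}
    (e : Fin p × Fin 2 ≃ κ) : pull (inc F l N i) (gpr (V i).E e) ∈ A κ := by
  have h5 := prod_mem hA (Fin 2) (Fin p) (fun _ => pairClass l i i (V i).E)
    (fun _ => hA.diag i)
  have h6 := hA.perm _ _ e _ h5
  convert h6 using 1
  funext I
  have h1 : gpr (V i).E e = fun J => ∏ s, bilc (V i).E ![J (e (s, 0)), J (e (s, 1))] := rfl
  rw [h1, Pool.Agent.W437.CY.pull_prod]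
  refine Finset.prod_congr rfl fun t _ => ?_
  rw [inc_bilc]
  congr 1
  funext ε
  fin_cases ε <;> rfl

/-- The generators belong to the system. -/
theorem gen_mem (hA : IsSystem M V D A) (i : ι) {κ : Type} [Fintype κ] [DecidableEq κ]
    (hi : i ∈ D ∨ Fintype.card κ < N i) {u : (κ → Fin (N i)) → F} (hu : u ∈ Gen (V i).E κ) :
    pull (inc F l N i) u ∈ A κ := by
  rcases hu with ⟨p, e, rfl⟩ | ⟨p, e, rfl⟩
  · exact gpr_mem hA i e
  · have hD : i ∈ D := by
      rcases hi with hi | hi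
      · exact hi
      · exfalso
        rw [← Fintype.card_congr e, Fintype.card_sum, Fintype.card_fin] at hi
        omega
    obtain ⟨w, hw⟩ : ∃ w : ((Fin p × Fin 2) ⊕ Fin (N i) → Fin (N i)) → F, w =
        fun J => gpr (V i).E (Equiv.refl (Fin p × Fin 2)) (fun j => J (Sum.inl j)) *
          dtn F (N i) (fun j => J (Sum.inr j)) := ⟨_, rfl⟩
    have h2 : gdt (V i).E e = fun I => w (fun j => I (e j)) := by rw [hw]; rfl
    have h3 : pull (inc F l N i) w ∈ A _ := by
      rw [hw, pull_sum, inc_dtn]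
      exact hA.mul _ _ _ _ (gpr_mem hA i _) (hA.det i hD)
    have h4 := hA.perm _ _ e _ h3
    convert h4 using 1
    funext I
    rw [h2, Pool.Agent.W437.CY.pull_reindex]

/-- The tensors on `V i` which are killed by its orthogonal Lie algebra. -/
def HH (V : ∀ i, OrRep χ (k i) (N i)) (l : ℕ) (i : ι) (κ : Type)
    [Fintype κ] [DecidableEq κ] : Submodule F ((κ → Bas l N) → F) where
  carrier := {c | (∀ I, c I ≠ 0 → ∀ j, ∃ b, I j = Sum.inr ⟨i, b⟩) ∧
    ∀ X, Xᵀ * (V i).E + (V i).E * X = 0 → act (em l (Pi.single i X)) c = 0}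
  zero_mem' := ⟨fun I h => absurd rfl h, fun X _ => act_zero_right _⟩
  add_mem' := by
    rintro c d ⟨h1, h2⟩ ⟨h3, h4⟩
    refine ⟨fun I hI => ?_, fun X hX => by rw [act_add_right, h2 X hX, h4 X hX, add_zero]⟩
    by_cases h : c I = 0
    · refine h3 I fun h5 => hI ?_
      rw [Pi.add_apply, h, h5, add_zero]
    · exact h1 I h
  smul_mem' := by
    rintro a c ⟨h1, h2⟩
    refine ⟨fun I hI => h1 I fun h5 => hI ?_, fun X hX => by
      rw [act_smul_right, h2 X hX, smul_zero]⟩
    rw [Pi.smul_apply, h5, smul_zero]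

theorem killed (hdk : Pool.Agent.W544.FF.S_hdk) (orb : Pool.Agent.W544.FF.S_orb) (ι₀ : F →+* ℂ)
    {i : ι} {κ : Type} [Fintype κ] [DecidableEq κ] {c : (κ → Bas l N) → F}
    (hc : c ∈ HH V l i κ) :
    ∃ t ∈ Submodule.span F (Gen (V i).E κ), c = pull (inc F l N i) t := by
  obtain ⟨t, ht⟩ : ∃ t : (κ → Fin (N i)) → F, t = fun J => c (fun j => Sum.inr ⟨i, J j⟩) :=
    ⟨_, rfl⟩
  have h1 : c = pull (inc F l N i) t := by
    funext I
    unfold pull
    by_cases h : ∃ J0 : κ → Fin (N i), I = fun j => Sum.inr ⟨i, J0 j⟩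
    · obtain ⟨J0, rfl⟩ := h
      rw [Finset.sum_eq_single J0]
      · rw [Finset.prod_eq_one, mul_one, ht]
        intro j _
        simp [inc]
      · intro J _ hJ
        obtain ⟨j, hj⟩ : ∃ j, J j ≠ J0 j := by
          by_contra h0
          push Not at h0
          exact hJ (funext h0)
        rw [Finset.prod_eq_zero (Finset.mem_univ j), mul_zero]
        simp [inc, Ne.symm hj]
      · intro h
        exact absurd (Finset.mem_univ _) h
    · have h2 : c I = 0 := by
        by_contra h0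
        choose J0 hJ0 using hc.1 I h0
        exact h ⟨J0, funext hJ0⟩
      rw [h2]
      symm
      refine Finset.sum_eq_zero fun J _ => ?_
      obtain ⟨j, hj⟩ : ∃ j, I j ≠ Sum.inr ⟨i, J j⟩ := by
        by_contra h0
        push Not at h0
        exact h ⟨J, funext h0⟩
      rw [Finset.prod_eq_zero (Finset.mem_univ j), mul_zero]
      simp [inc, hj]
  refine ⟨t, fft hdk orb ι₀ (V i).sym (V i).unit t fun X hX => ?_, h1⟩
  have h2 := hc.2 X hX
  rw [h1, act_pull (inc_em i _), Pi.single_eq_same] at h2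
  have h3 := congrArg (pull (inc F l N i)ᵀ) h2
  rw [pull_pull, inc_same, pull_one, pull_zero] at h3
  exact h3

/-- The killed tensors on `V i`. -/
theorem slice (hdk : Pool.Agent.W544.FF.S_hdk) (orb : Pool.Agent.W544.FF.S_orb) (ι₀ : F →+* ℂ)
    (hA : IsSystem M V D A) {i : ι} {κ : Type} [Fintype κ] [DecidableEq κ]
    {c : (κ → Bas l N) → F} (hc : c ∈ HH V l i κ) :
    (∀ g, ((V i).ρ g).det = ((χ g ^ (k i * N i) : Fˣ) : F) →
      ta M V g c = ((χ g ^ (k i * Fintype.card κ) : Fˣ) : F) • c) ∧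
    (i ∈ D ∨ Fintype.card κ < N i → c ∈ A κ) := by
  obtain ⟨t, ht, rfl⟩ := killed hdk orb ι₀ hc
  clear hc
  have hta : ∀ (g : Γ) (t : (κ → Fin (N i)) → F), ta M V g (pull (inc F l N i) t) =
      pull (inc F l N i) (pull ((V i).ρ g)ᵀ t) := by
    intro g t
    unfold ta
    rw [pull_pull, pull_pull]
    congr 1
    have h6 : grp M V g * (inc F l N i)ᵀ = (inc F l N i)ᵀ * (V i).ρ g := blocks_incT i _ _
    have h7 := congrArg Matrix.transpose h6
    rwa [Matrix.transpose_mul, Matrix.transpose_mul, Matrix.transpose_transpose] at h7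
  induction ht using Submodule.span_induction with
  | zero =>
    rw [pull_zero]
    exact ⟨fun g _ => by rw [smul_zero]; exact pull_zero _, fun _ => Submodule.zero_mem _⟩
  | add x y _ _ hx hy =>
    rw [Pool.Agent.W437.CY.pull_add]
    exact ⟨fun g hg => by rw [ta_add, hx.1 g hg, hy.1 g hg, smul_add],
      fun h => Submodule.add_mem _ (hx.2 h) (hy.2 h)⟩
  | smul a x _ hx =>
    rw [Pool.Agent.W437.CY.pull_smul]
    exact ⟨fun g hg => by rw [ta_smul, hx.1 g hg, smul_comm],
      fun h => Submodule.smul_mem _ _ (hx.2 h)⟩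
  | mem x hx =>
    exact ⟨fun g hg => by rw [hta, pull_gen (V i) hg hx, Pool.Agent.W437.CY.pull_smul],
      fun h => gen_mem hA i h hx⟩

end Pool.Agent.W437.OR
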