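import Mathlib
import Pool.Agent.W437.OR.Slice
import Pool.Agent.W437.TA.Theta

/-!
# Tate classes on the tensor powers of the sum (orthogonal summands)
-/

set_option linter.unusedSectionVars false

namespace Pool.Agent.W437.OR

open Matrix Pool.Agent.W437.HC Pool.Agent.W437.HP

variable {F : Type} [Field F] [CharZero F] {ι : Type} [Fintype ι] [DecidableEq ι] {N : ι → ℕ}
  {l : ℕ} {Γ : Type} [Group Γ] {χ : Γ →* Fˣ} {k : ι → ℤ}
  {M : Γ →* Matrix (Fin l) (Fin l) F} {V : ∀ i, OrRep χ (k i) (N i)} {D : Set ι}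
  {A : ∀ κ : Type, Submodule F ((κ → Bas l N) → F)}

/-- The number of factors of type `i`. -/
theorem cnt_eq {κ : Type} [Fintype κ] (i : ι) (I : κ → Bas l N) :
    (Finset.univ.filter fun j => ∃ b, I j = Sum.inr ⟨i, b⟩).card =
      ∑ j, if ∃ b, I j = Sum.inr ⟨i, b⟩ then 1 else 0 := Finset.card_filter _ _

/-- Tate classes on a product, for factors of given types. -/
theorem two_mem (hdk : Pool.Agent.W544.FF.S_hdk) (orb : Pool.Agent.W544.FF.S_orb) (ι₀ : F →+* ℂ)
    (hA : IsSystem M V D A) {i : ι} {S : Finset ι} (hi : i ∉ S)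
    (hF : ∀ X : Matrix (Fin (N i)) (Fin (N i)) F, Xᵀ * (V i).E + (V i).E * X = 0 →
      ∀ (κ : Type) [Fintype κ] [DecidableEq κ] (c : (κ → Bas l N) → F), IsTateClass M V c →
        (∀ I, c I ≠ 0 → ∀ j i' b, I j = Sum.inr ⟨i', b⟩ → i' ∈ insert i S) →
        act (em l (Pi.single i X)) c = 0)
    (ih : ∀ (κ : Type) [Fintype κ] [DecidableEq κ] (c : (κ → Bas l N) → F), IsTateClass M V c →
      (∀ I, c I ≠ 0 → ∀ j i' b, I j = Sum.inr ⟨i', b⟩ → i' ∈ S) → IsFew D c → c ∈ A κ)
    {κ₁ κ₂ : Type} [Fintype κ₁] [DecidableEq κ₁] [Fintype κ₂] [DecidableEq κ₂]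
    {c : (κ₁ ⊕ κ₂ → Bas l N) → F} (hc : IsTateClass M V c)
    (h1 : ∀ I, c I ≠ 0 → ∀ j, ∃ b, I (Sum.inl j) = Sum.inr ⟨i, b⟩)
    (h2 : ∀ I, c I ≠ 0 → ∀ j i' b, I (Sum.inr j) = Sum.inr ⟨i', b⟩ → i' ∈ S)
    (hfew : IsFew D c) : c ∈ A (κ₁ ⊕ κ₂) := by
  by_cases hc0 : c = 0
  · rw [hc0]
    exact Submodule.zero_mem _
  obtain ⟨I₀, hI₀⟩ : ∃ I₀, c I₀ ≠ 0 := by
    by_contra h
    push Not at h
    exact hc0 (funext h)
  have hDN : i ∈ D ∨ Fintype.card κ₁ < N i := by
    by_cases hD : i ∈ D
    · exact Or.inl hD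
    · refine Or.inr (lt_of_le_of_lt ?_ (hfew I₀ hI₀ i hD))
      rw [cnt_eq, Fintype.sum_sum_type]
      refine le_trans ?_ (Nat.le_add_right _ _)
      rw [Finset.sum_congr rfl fun j _ => if_pos (h1 I₀ hI₀ j), Finset.sum_const,
        Finset.card_univ, smul_eq_mul, mul_one]
  obtain ⟨H, hfi, hH⟩ := exists_det (V i)
  obtain ⟨n, H', hfi', hH'⟩ := (isTate_iff M V c).1 hc
  obtain ⟨e, he⟩ : ∃ e : ℤ, e = k i * Fintype.card κ₁ := ⟨_, rfl⟩
  have hsup : ∀ I, c I ≠ 0 → ∀ j i' b, I j = Sum.inr ⟨i', b⟩ → i' ∈ insert i S := by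
    intro I hI j i' b hb
    rcases j with j | j
    · obtain ⟨b', hb'⟩ := h1 I hI j
      rw [hb'] at hb
      exact Finset.mem_insert.2 (Or.inl (congrArg Sigma.fst (Sum.inr.inj hb)).symm)
    · exact Finset.mem_insert.2 (Or.inr (h2 I hI j i' b hb))
  -- the slices in the first variables
  have hs : ∀ P : κ₂ → Bas l N, (fun J : κ₁ → Bas l N => c (Sum.elim J P)) ∈ HH V l i κ₁ := by
    intro P
    refine ⟨fun J hJ j => h1 _ hJ j, fun X hX => ?_⟩
    by_cases hP : ∀ j, ∀ i' b, P j = Sum.inr ⟨i', b⟩ → i' ∈ S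
    · funext J
      have h3 := congrFun (hF X hX _ c hc hsup) (Sum.elim J P)
      rw [Pi.zero_apply] at h3 ⊢
      rw [← h3]
      unfold act
      rw [Fintype.sum_sum_type]
      have h4 : ∑ j : κ₂, ∑ b, em l (Pi.single i X) b (Sum.elim J P (Sum.inr j)) *
          c (Function.update (Sum.elim J P) (Sum.inr j) b) = 0 := by
        refine Finset.sum_eq_zero fun j _ => Finset.sum_eq_zero fun b _ => ?_
        have h5 : em l (Pi.single i X) b (P j) = 0 := by
          rcases hz : P j with t | ⟨i', b'⟩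
          · rcases b with b | b <;> rfl
          · have h6 : i' ≠ i := fun h => hi (h ▸ hP j i' b' hz)
            rcases b with b | ⟨i'', b''⟩
            · rfl
            · change Matrix.blockDiagonal'
                (Pi.single i X : ∀ i, Matrix (Fin (N i)) (Fin (N i)) F) ⟨i'', b''⟩ ⟨i', b'⟩ = 0
              by_cases h7 : i'' = i'
              · subst h7
                rw [Matrix.blockDiagonal'_apply_eq, Pi.single_eq_of_ne h6]
                rfl
              · exact Matrix.blockDiagonal'_apply_ne _ _ _ h7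
        rw [Sum.elim_inr, h5, zero_mul]
      rw [h4, add_zero]
      refine Finset.sum_congr rfl fun j _ => Finset.sum_congr rfl fun b _ => ?_
      rw [Sum.elim_inl, Sum.update_elim_inl]
    · have h3 : (fun J : κ₁ → Bas l N => c (Sum.elim J P)) = 0 := by
        funext J
        by_contra h4
        exact hP fun j i' b hb => h2 _ h4 j i' b hb
      rw [h3, act_zero_right]
  -- the slices in the other variables
  let U : Submodule F ((κ₂ → Bas l N) → F) :=
    { carrier := {u | (∀ g ∈ H ⊓ H', ta M V g u = ((χ g ^ (n - e) : Fˣ) : F) • u) ∧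
        ∀ P, u P ≠ 0 → (∀ j i' b, P j = Sum.inr ⟨i', b⟩ → i' ∈ S) ∧
          ∀ i', i' ∉ D → (Finset.univ.filter fun j => ∃ b, P j = Sum.inr ⟨i', b⟩).card < N i'}
      zero_mem' := ⟨fun g _ => by rw [smul_zero]; exact pull_zero _, fun P h => absurd rfl h⟩
      add_mem' := by
        rintro u v ⟨hu, hu'⟩ ⟨hv, hv'⟩
        refine ⟨fun g hg => by rw [ta_add, hu g hg, hv g hg, smul_add], fun P hP => ?_⟩
        by_cases h : u P = 0
        · refine hv' P fun h5 => hP ?_
          rw [Pi.add_apply, h, h5, add_zero]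
        · exact hu' P h
      smul_mem' := by
        rintro a u ⟨hu, hu'⟩
        refine ⟨fun g hg => by rw [ta_smul, hu g hg, smul_comm], fun P hP => hu' P fun h5 => ?_⟩
        apply hP
        rw [Pi.smul_apply, h5, smul_zero] }
  have hu : ∀ J : κ₁ → Bas l N, (fun P : κ₂ → Bas l N => c (Sum.elim J P)) ∈ U := by
    intro J
    refine ⟨fun g hg => ?_, fun P hP => ⟨fun j i' b hb => h2 _ hP j i' b hb, fun i' hi' => ?_⟩⟩
    · funext P
      have h3 := congrFun (hH' g hg.2) (Sum.elim J P)
      have h4 : ta M V g c (Sum.elim J P) = ∑ P' : κ₂ → Bas l N, (∏ j, grp M V g (P j) (P' j)) *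
          ta M V g (fun J' : κ₁ → Bas l N => c (Sum.elim J' P')) J := by
        rw [ta_apply, ← (Equiv.sumArrowEquivProdArrow κ₁ κ₂ (Bas l N)).symm.sum_comp,
          Fintype.sum_prod_type, Finset.sum_comm]
        refine Finset.sum_congr rfl fun P' _ => ?_
        rw [ta_apply, Finset.mul_sum]
        refine Finset.sum_congr rfl fun J' _ => ?_
        rw [Fintype.prod_sum_type]
        have h5 : (Equiv.sumArrowEquivProdArrow κ₁ κ₂ (Bas l N)).symm (J', P') =
            Sum.elim J' P' := rfl
        rw [h5]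
        simp only [Sum.elim_inl, Sum.elim_inr]
        ring
      have h5 : ∀ P' : κ₂ → Bas l N, ta M V g (fun J' : κ₁ → Bas l N => c (Sum.elim J' P')) J =
          ((χ g ^ e : Fˣ) : F) * c (Sum.elim J P') := by
        intro P'
        have h6 := congrFun ((slice hdk orb ι₀ hA (hs P')).1 g (hH g hg.1)) J
        rw [← he] at h6
        exact h6
      rw [h4, Finset.sum_congr rfl (fun P' _ => by rw [h5])] at h3
      rw [ta_apply, Pi.smul_apply, smul_eq_mul]
      have h6 : ((χ g ^ e : Fˣ) : F) * ∑ P' : κ₂ → Bas l N, (∏ j, grp M V g (P j) (P' j)) *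
          c (Sum.elim J P') = ((χ g ^ n : Fˣ) : F) * c (Sum.elim J P) := by
        rw [Pi.smul_apply, smul_eq_mul] at h3
        rw [← h3, Finset.mul_sum]
        exact Finset.sum_congr rfl fun P' _ => by ring
      have h7 : ((χ g ^ n : Fˣ) : F) = ((χ g ^ e : Fˣ) : F) * ((χ g ^ (n - e) : Fˣ) : F) := by
        rw [← Units.val_mul, ← _root_.zpow_add]
        congr 2
        ring
      rw [h7, mul_assoc] at h6
      exact mul_left_cancel₀ (Units.ne_zero _) h6
    · refine lt_of_le_of_lt ?_ (hfew _ hP i' hi')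
      rw [cnt_eq, cnt_eq, Fintype.sum_sum_type]
      exact Nat.le_add_left _ _
  obtain ⟨r, h, u, hh, huu, hsum⟩ := Pool.Agent.W437.TA.exists_tensor (HH V l i κ₁) U
    (fun J P => c (Sum.elim J P)) hu (fun P => hs P)
  have hcs : c = ∑ i, fun I : κ₁ ⊕ κ₂ → Bas l N =>
      h i (fun j => I (Sum.inl j)) * u i (fun j => I (Sum.inr j)) := by
    funext I
    rw [Finset.sum_apply, ← hsum]
    congr 1
    funext j
    rcases j with j | j <;> rfl
  rw [hcs]
  refine Submodule.sum_mem _ fun a _ => ?_
  refine hA.mul _ _ _ _ ((slice hdk orb ι₀ hA (hh a)).2 hDN) ?_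
  refine ih _ _ ?_ (fun P hP => ((huu a).2 P hP).1) (fun P hP => ((huu a).2 P hP).2)
  rw [isTate_iff]
  exact ⟨n - e, H ⊓ H', inferInstance, (huu a).1⟩

/-- The type of a basis vector. -/
def typ (z : Bas l N) : Option ι := Sum.elim (fun _ => none) (fun b => some b.1) z

theorem grp_typ (g : Γ) {z z' : Bas l N} (h : grp M V g z z' ≠ 0) : typ z = typ z' := by
  rcases z with t | ⟨i, b⟩ <;> rcases z' with t' | ⟨j, b'⟩
  · rfl
  · exact absurd rfl h
  · exact absurd rfl h
  · by_cases hij : i = j
    · subst hij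
      rfl
    · have h' : Matrix.blockDiagonal' (fun i => (V i).ρ g) ⟨i, b⟩ ⟨j, b'⟩ ≠ 0 := h
      exact absurd (Matrix.blockDiagonal'_apply_ne _ _ _ hij) h'

/-- The part of a tensor of a given type. -/
def mask {κ : Type} [Fintype κ] [DecidableEq κ] (T : κ → Option ι) (c : (κ → Bas l N) → F) :
    (κ → Bas l N) → F := fun I => if (fun j => typ (I j)) = T then c I else 0

theorem ta_mask {κ : Type} [Fintype κ] [DecidableEq κ] (T : κ → Option ι)
    (c : (κ → Bas l N) → F) (g : Γ) : ta M V g (mask T c) = mask T (ta M V g c) := by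
  funext I
  unfold mask
  rw [ta_apply, ta_apply]
  have h1 : ∀ J : κ → Bas l N, (∏ j, grp M V g (I j) (J j)) *
      (if (fun j => typ (J j)) = T then c J else 0) =
      if (fun j => typ (I j)) = T then (∏ j, grp M V g (I j) (J j)) * c J else 0 := by
    intro J
    by_cases h0 : ∏ j, grp M V g (I j) (J j) = 0
    · rw [h0, zero_mul, zero_mul, ite_self]
    · have h2 : (fun j => typ (J j)) = fun j => typ (I j) := by
        funext j
        exact (grp_typ g (fun h => h0 (Finset.prod_eq_zero (Finset.mem_univ j) h))).symm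
      rw [h2]
      split_ifs
      · rfl
      · rw [mul_zero]
  rw [Finset.sum_congr rfl fun J _ => h1 J]
  split_ifs
  · rfl
  · exact Finset.sum_const_zero

/-- The family where the representations outside `S` are replaced by trivial ones. -/
def cut (V : ∀ i, OrRep χ (k i) (N i)) (S : Finset ι) (i : ι) :
    OrRep χ (if i ∈ S then k i else 0) (N i) where
  ρ := if i ∈ S then (V i).ρ else 1
  E := (V i).E
  sym := (V i).sym
  unit := (V i).unit
  sim := fun g => by
    by_cases h : i ∈ S
    · rw [if_pos h, if_pos h]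
      exact (V i).sim g
    · rw [if_neg h, if_neg h]
      simp

theorem cut_pos {S : Finset ι} {i : ι} (h : i ∈ S) : (cut V S i).ρ = (V i).ρ := if_pos h

theorem cut_neg {S : Finset ι} {i : ι} (h : i ∉ S) : (cut V S i).ρ = 1 := if_neg h

theorem grp_cut {S : Finset ι} (g : Γ) (z : Bas l N) {z' : Bas l N}
    (h : ∀ i b, z' = Sum.inr ⟨i, b⟩ → i ∈ S) : grp M (cut V S) g z z' = grp M V g z z' := by
  rcases z with t | ⟨i, b⟩ <;> rcases z' with t' | ⟨j, b'⟩
  · rfl
  · rfl
  · rfl
  · change Matrix.blockDiagonal' (fun i => (cut V S i).ρ g) ⟨i, b⟩ ⟨j, b'⟩ =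
      Matrix.blockDiagonal' (fun i => (V i).ρ g) ⟨i, b⟩ ⟨j, b'⟩
    by_cases hij : i = j
    · subst hij
      rw [Matrix.blockDiagonal'_apply_eq, Matrix.blockDiagonal'_apply_eq, cut_pos (h i b' rfl)]
    · rw [Matrix.blockDiagonal'_apply_ne _ _ _ hij, Matrix.blockDiagonal'_apply_ne _ _ _ hij]

theorem isTate_cut {S : Finset ι} {κ : Type} [Fintype κ] [DecidableEq κ]
    {c : (κ → Bas l N) → F} (hc : IsTateClass M V c)
    (hS : ∀ I, c I ≠ 0 → ∀ j i' b, I j = Sum.inr ⟨i', b⟩ → i' ∈ S) :
    IsTateClass M (cut V S) c := by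
  obtain ⟨n, H, hH, h⟩ := hc
  refine ⟨n, H, hH, fun g hg I => ?_⟩
  rw [← h g hg I]
  refine Finset.sum_congr rfl fun J _ => ?_
  by_cases h0 : c J = 0
  · rw [h0, mul_zero, mul_zero]
  · congr 1
    exact Finset.prod_congr rfl fun j _ => grp_cut g _ (hS J h0 j)

theorem exists_hh [LinearOrder ι] {i : ι} (h : IsIndep M V i) {S : Finset ι}
    (hS : ∀ x ∈ S, x < i) :
    ∃ Y ∈ hh M (cut V (insert i S)), Y i ≠ 0 ∧ ∀ j, j ≠ i → Y j = 0 := by
  have hi : i ∈ insert i S := Finset.mem_insert_self _ _
  have hj1 : ∀ j, j ≠ i → j ∈ insert i S → j < i := fun j hj h' =>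
    hS j ((Finset.mem_insert.1 h').resolve_left hj)
  rcases h with ⟨u, hχ, hM, hj, hne, hnil⟩ | ⟨hcl, f, a, ha, hm⟩
  · have hj' : ∀ j, j ≠ i → (cut V (insert i S) j).ρ u = 1 := by
      intro j h
      by_cases h' : j ∈ insert i S
      · rw [cut_pos h']
        exact hj j (hj1 j h h')
      · rw [cut_neg h']
        rfl
    have hnil' : ∀ j, IsNilpotent ((cut V (insert i S) j).ρ u - 1) := by
      intro j
      by_cases h : j = i
      · subst h
        rw [cut_pos hi]
        exact hnil
      · rw [hj' j h, sub_self]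
        exact IsNilpotent.zero
    obtain ⟨Y, hY, hY'⟩ := hh_log M (cut V (insert i S)) hχ hM hnil'
    exact ⟨Y, hY, (hY' i).1 (by rw [cut_pos hi]; exact hne), fun j h => (hY' j).2 (hj' j h)⟩
  · obtain ⟨θ, hθ, hθa⟩ := Pool.Agent.W437.TA.exists_theta _ a hm
    obtain ⟨Y, hY, hY'⟩ := hh_frob M (cut V (insert i S)) θ
      (hθ _ (Subgroup.subset_closure (Or.inl (Or.inl rfl))))
      (fun b hb => hθ _ (Subgroup.subset_closure (Or.inl (Or.inr hb))))
    refine ⟨Y, hY, (hY' i).1 ⟨a, by rw [cut_pos hi]; exact ha, hθa⟩, fun j h => (hY' j).2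
      fun b hb => ?_⟩
    by_cases h' : j ∈ insert i S
    · rw [cut_pos h'] at hb
      exact hθ _ (Subgroup.subset_closure (Or.inr ⟨j, hj1 j h h', hb⟩))
    · rw [cut_neg h'] at hb
      have h1 : (b : F) = 1 := by
        have h2 : ((1 : Γ →* Matrix (Fin (N j)) (Fin (N j)) F) f).charpoly =
            (Polynomial.X - 1) ^ N j := by
          rw [MonoidHom.one_apply, Matrix.charpoly_one, Fintype.card_fin]
        rw [h2, Polynomial.IsRoot.def, Polynomial.eval_pow, Polynomial.eval_sub,
          Polynomial.eval_X, Polynomial.eval_one] at hb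
        have h3 : (b : F) - 1 = 0 := by
          by_contra h0
          exact pow_ne_zero (N j) h0 hb
        exact sub_eq_zero.1 h3
      have h2 : b = 1 := Units.ext h1
      rw [h2, map_one]

/-- All Tate classes belong to the system. -/
theorem main [LinearOrder ι] (hdk : Pool.Agent.W544.FF.S_hdk) (orb : Pool.Agent.W544.FF.S_orb)
    (ι₀ : F →+* ℂ)
    (hbig : ∀ i, (V i).IsBig) (hind : ∀ i, IsIndep M V i)
    (hA : IsSystem M V D A) {κ : Type} [Fintype κ] [DecidableEq κ] (c : (κ → Bas l N) → F)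
    (hc : IsTateClass M V c) (hfew : IsFew D c) : c ∈ A κ := by
  have key : ∀ (S : Finset ι) (κ : Type) [Fintype κ] [DecidableEq κ] (c : (κ → Bas l N) → F),
      IsTateClass M V c → (∀ I, c I ≠ 0 → ∀ j i' b, I j = Sum.inr ⟨i', b⟩ → i' ∈ S) →
      IsFew D c → c ∈ A κ := by
    intro S
    induction S using Finset.induction_on_max with
    | empty =>
      intro κ _ _ c hc hS _
      refine hA.low κ c hc fun I ⟨j, b, hb⟩ => ?_
      by_contra h0
      exact absurd (hS I h0 j b.1 b.2 hb) (Finset.notMem_empty _)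
    | insert i S hlt ih =>
      have hi : i ∉ S := fun h => lt_irrefl _ (hlt i h)
      have hF : ∀ X : Matrix (Fin (N i)) (Fin (N i)) F, Xᵀ * (V i).E + (V i).E * X = 0 →
          ∀ (κ : Type) [Fintype κ] [DecidableEq κ] (c : (κ → Bas l N) → F), IsTateClass M V c →
          (∀ I, c I ≠ 0 → ∀ j i' b, I j = Sum.inr ⟨i', b⟩ → i' ∈ insert i S) →
          act (em l (Pi.single i X)) c = 0 := by
        intro X hX κ _ _ c hc hcS
        have hbig' : (cut V (insert i S) i).IsBig := by
          have h1 := hbig i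
          unfold OrRep.IsBig at h1 ⊢
          rw [cut_pos (Finset.mem_insert_self _ _)]
          exact h1
        obtain ⟨Y, hY, hYX, hYj⟩ := hh_full M (cut V (insert i S)) hbig'
          (exists_hh (hind i) hlt) (X := X) hX
        have h1 : Y = Pi.single i X := by
          funext j
          by_cases h : j = i
          · subst h
            rw [hYX, Pi.single_eq_same]
          · rw [hYj j h, Pi.single_eq_of_ne h]
        rw [← h1]
        exact hY κ c (isTate_cut hc hcS)
      intro κ _ _ c hc hS hfew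
      have hsum : c = ∑ T : κ → Option ι, mask T c := by
        funext I
        rw [Finset.sum_apply]
        unfold mask
        rw [Finset.sum_ite_eq, if_pos (Finset.mem_univ _)]
      rw [hsum]
      refine Submodule.sum_mem _ fun T _ => ?_
      obtain ⟨n, H, hH, h⟩ := (isTate_iff M V c).1 hc
      let e := Equiv.sumCompl fun j => T j = some i
      let c' : ({j // T j = some i} ⊕ {j // ¬T j = some i} → Bas l N) → F :=
        fun I => mask T c (fun j => I (e.symm j))
      have hcc : mask T c = fun I => c' (fun s => I (e s)) := by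
        funext I
        simp [c']
      have hcn : ∀ I, c' I ≠ 0 → c (fun j => I (e.symm j)) ≠ 0 := by
        intro I hI h0
        apply hI
        change (if (fun j => typ (I (e.symm j))) = T then c (fun j => I (e.symm j)) else 0) = 0
        rw [h0, ite_self]
      have hc0 : ∀ I, c' I ≠ 0 → ∀ s, typ (I s) = T (e s) := by
        intro I hI s
        by_contra h0
        apply hI
        change (if (fun j => typ (I (e.symm j))) = T then _ else 0) = 0
        rw [if_neg]
        intro h1
        apply h0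
        have h2 := congrFun h1 (e s)
        rwa [Equiv.symm_apply_apply] at h2
      have hc' : IsTateClass M V c' := by
        rw [isTate_iff]
        refine ⟨n, H, hH, fun g hg => ?_⟩
        funext I
        have h3 : ta M V g c' I = ta M V g (mask T c) (fun j => I (e.symm j)) := by
          unfold ta
          rw [← Pool.Agent.W437.CY.pull_reindex _ e.symm]
        rw [h3, ta_mask, h g hg]
        change mask T (((χ g ^ n : Fˣ) : F) • c) _ = ((χ g ^ n : Fˣ) : F) * mask T c _
        unfold mask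
        split_ifs
        · rfl
        · rw [mul_zero]
      have h1 : c' ∈ A _ := by
        refine two_mem hdk orb ι₀ hA hi hF (fun κ _ _ c => ih κ c) hc' ?_ ?_ ?_
        · intro I hI j
          have h2 := hc0 I hI (Sum.inl j)
          have h3 : T (e (Sum.inl j)) = some i := j.2
          rw [h3] at h2
          rcases hz : I (Sum.inl j) with t | ⟨i', b⟩
          · rw [hz] at h2
            exact (Option.some_ne_none _ h2.symm).elim
          · rw [hz] at h2
            have h4 : i' = i := Option.some.inj h2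
            subst h4
            exact ⟨b, rfl⟩
        · intro I hI j i' b hb
          have h2 := hc0 I hI (Sum.inr j)
          rw [hb] at h2
          have h3 : T j.1 = some i' := h2.symm
          have h4 : i' ≠ i := fun h5 => j.2 (by rw [h3, h5])
          have h5 := hS _ (hcn I hI) j.1 i' b (by
            have h6 : e.symm j.1 = Sum.inr j := by
              rw [Equiv.symm_apply_eq]
              rfl
            rw [h6, hb])
          exact (Finset.mem_insert.1 h5).resolve_left h4
        · intro I hI i' hi'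
          have h2 := hfew _ (hcn I hI) i' hi'
          rw [cnt_eq] at h2 ⊢
          rwa [Equiv.sum_comp e.symm (fun s => if ∃ b, I s = Sum.inr ⟨i', b⟩ then 1 else 0)]
            at h2
      rw [hcc]
      exact hA.perm _ _ e _ h1
  exact key Finset.univ κ c hc (fun I _ j i' b _ => Finset.mem_univ _) hfew

end Pool.Agent.W437.OR
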